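import Mathlib

/-!
# Intersection numbers: the length of `B / (x, y)`
-/

set_option autoImplicit false

namespace Pool.HYP59

section Inter

variable {B : Type} [CommRing B]

/-- The length of `B / (x, y)`. -/
noncomputable def ilen (x y : B) : ℕ∞ := Module.length B (B ⧸ Ideal.span {x, y})

theorem ilen_congr {x y x' y' : B} (h : Ideal.span {x, y} = Ideal.span {x', y'}) :
    ilen x y = ilen x' y' := by
  unfold ilen; rw [h]

theorem ilen_comm (x y : B) : ilen x y = ilen y x := by
  apply ilen_congr; rw [Set.pair_comm]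

theorem ilen_of_le {x y y' : B} (h : ∃ p q, y = x * p + y' * q) (h' : ∃ p q, y' = x * p + y * q) :
    ilen x y = ilen x y' := by
  apply ilen_congr
  obtain ⟨p, q, h⟩ := h
  obtain ⟨p', q', h'⟩ := h'
  apply le_antisymm
  · rw [Ideal.span_le]
    rintro z (rfl | hz)
    · exact Ideal.subset_span (by simp)
    · rw [Set.mem_singleton_iff] at hz
      rw [hz]
      exact Ideal.mem_span_pair.2 ⟨p, q, by rw [h]; ring⟩
  · rw [Ideal.span_le]
    rintro z (rfl | hz)
    · exact Ideal.subset_span (by simp)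
    · rw [Set.mem_singleton_iff] at hz
      rw [hz]
      exact Ideal.mem_span_pair.2 ⟨p', q', by rw [h']; ring⟩

theorem ilen_dvd {x y y' : B} (h : x ∣ y - y') : ilen x y = ilen x y' := by
  obtain ⟨c, hc⟩ := h
  exact ilen_of_le ⟨c, 1, by rw [← hc]; ring⟩ ⟨-c, 1, by linear_combination (-1) * hc⟩

theorem ilen_unit {x y u : B} (hu : IsUnit u) : ilen x (u * y) = ilen x y := by
  obtain ⟨u, rfl⟩ := hu
  refine ilen_of_le ⟨0, u, by ring⟩ ⟨0, ((u⁻¹ : Bˣ) : B), ?_⟩
  have : (u : B) * ((u⁻¹ : Bˣ) : B) = 1 := by simp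
  linear_combination (-y) * this

theorem ilen_one (x : B) : ilen x 1 = 0 := by
  unfold ilen
  rw [Module.length_eq_zero_iff, Submodule.Quotient.subsingleton_iff, Ideal.eq_top_iff_one]
  exact Ideal.subset_span (by simp)

/-- `y` is not a zero divisor modulo `x`. -/
def Nzd (x y : B) : Prop := ∀ t, x ∣ y * t → x ∣ t

theorem ilen_mul {x y : B} (hy : Nzd x y) (z : B) : ilen x (y * z) = ilen x y + ilen x z := by
  have h1 : Ideal.span {x, z} ≤ Submodule.comap (LinearMap.lsmul B B y)
      (Ideal.span {x, y * z}) := by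
    rw [Ideal.span_le]
    rintro t (rfl | ht)
    · exact Ideal.mul_mem_left _ _ (Ideal.subset_span (by simp))
    · rw [Set.mem_singleton_iff] at ht
      rw [ht]
      exact Ideal.subset_span (by simp)
  have h2 : Ideal.span {x, y * z} ≤ Submodule.comap (LinearMap.id : B →ₗ[B] B)
      (Ideal.span {x, y}) := by
    rw [Ideal.span_le]
    rintro t (rfl | ht)
    · exact Ideal.subset_span (by simp)
    · rw [Set.mem_singleton_iff] at ht
      rw [ht]
      exact Ideal.mul_mem_right _ _ (Ideal.subset_span (by simp))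
  have key := Module.length_eq_add_of_exact (R := B)
    (Submodule.mapQ (Ideal.span {x, z}) (Ideal.span {x, y * z}) (LinearMap.lsmul B B y) h1)
    (Submodule.mapQ (Ideal.span {x, y * z}) (Ideal.span {x, y}) (LinearMap.id : B →ₗ[B] B) h2)
    ?_ ?_ ?_
  · unfold ilen
    rw [key, add_comm]
  · rw [← LinearMap.ker_eq_bot, LinearMap.ker_eq_bot']
    intro t ht
    obtain ⟨t, rfl⟩ := Submodule.mkQ_surjective _ t
    rw [Submodule.mkQ_apply, Submodule.mapQ_apply, Submodule.Quotient.mk_eq_zero] at ht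
    rw [Submodule.mkQ_apply, Submodule.Quotient.mk_eq_zero]
    obtain ⟨a, b, hab⟩ := Ideal.mem_span_pair.1 ht
    have h3 : x ∣ y * (t - b * z) := ⟨a, by
      have : (LinearMap.lsmul B B y) t = y * t := rfl
      rw [this] at hab
      linear_combination (-1) * hab⟩
    obtain ⟨c, hc⟩ := hy _ h3
    exact Ideal.mem_span_pair.2 ⟨c, b, by linear_combination (-1) * hc⟩
  · intro t
    obtain ⟨t, rfl⟩ := Submodule.mkQ_surjective _ t
    exact ⟨Submodule.mkQ _ t, rfl⟩
  · intro t
    obtain ⟨t, rfl⟩ := Submodule.mkQ_surjective _ t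
    constructor
    · intro ht
      rw [Submodule.mkQ_apply, Submodule.mapQ_apply, LinearMap.id_apply,
        Submodule.Quotient.mk_eq_zero] at ht
      obtain ⟨a, b, hab⟩ := Ideal.mem_span_pair.1 ht
      refine ⟨Submodule.mkQ _ b, ?_⟩
      rw [Submodule.mkQ_apply, Submodule.mkQ_apply, Submodule.mapQ_apply,
        Submodule.Quotient.eq]
      have : (LinearMap.lsmul B B y) b = y * b := rfl
      rw [this]
      exact Ideal.mem_span_pair.2 ⟨-a, 0, by linear_combination (-1) * hab⟩
    · rintro ⟨s, hs⟩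
      obtain ⟨s, rfl⟩ := Submodule.mkQ_surjective _ s
      rw [← hs, Submodule.mkQ_apply, Submodule.mapQ_apply, Submodule.mapQ_apply,
        LinearMap.id_apply, Submodule.Quotient.mk_eq_zero]
      exact Ideal.mem_span_pair.2 ⟨0, s, by
        have : (LinearMap.lsmul B B y) s = y * s := rfl
        rw [this]; ring⟩

theorem Nzd.mul {x y z : B} (hy : Nzd x y) (hz : Nzd x z) : Nzd x (y * z) := fun t ht =>
  hz t (hy _ (by rwa [← mul_assoc]))

theorem nzd_one (x : B) : Nzd x 1 := fun t ht => by rwa [one_mul] at ht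

theorem Nzd.pow {x y : B} (hy : Nzd x y) (n : ℕ) : Nzd x (y ^ n) := by
  induction n with
  | zero => rw [pow_zero]; exact nzd_one x
  | succ n ih => rw [pow_succ]; exact ih.mul hy

/-- A divisor of a non-zero-divisor. -/
theorem Nzd.of_mul {x y z : B} (h : Nzd x (y * z)) : Nzd x y := fun t ht =>
  h t (by
    obtain ⟨c, hc⟩ := ht
    exact ⟨z * c, by linear_combination z * hc⟩)

theorem Nzd.congr {x y z : B} (h : Nzd x y) (hyz : x ∣ y - z) : Nzd x z := fun t ht => by
  apply h t
  obtain ⟨c, hc⟩ := hyz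
  obtain ⟨d, hd⟩ := ht
  exact ⟨d + c * t, by linear_combination hd + t * hc⟩

theorem Nzd.congr' {x y z : B} (h : Nzd x y) (hyz : x ∣ z - y) : Nzd x z := fun t ht => by
  apply h t
  obtain ⟨c, hc⟩ := hyz
  obtain ⟨d, hd⟩ := ht
  exact ⟨d - c * t, by linear_combination hd - t * hc⟩

theorem nzd_unit {x y : B} (h : IsUnit y) : Nzd x y := fun t ht => by
  obtain ⟨u, rfl⟩ := h
  obtain ⟨c, hc⟩ := ht
  refine ⟨((u⁻¹ : Bˣ) : B) * c, ?_⟩
  have : ((u⁻¹ : Bˣ) : B) * (u : B) = 1 := by simp
  linear_combination (-t) * this + ((u⁻¹ : Bˣ) : B) * hc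

theorem ilen_pow {x y : B} (hy : Nzd x y) (n : ℕ) : ilen x (y ^ n) = n * ilen x y := by
  induction n with
  | zero => rw [pow_zero, ilen_one]; simp
  | succ n ih =>
    rw [pow_succ, ilen_mul (hy.pow n), ih]
    push_cast
    ring

end Inter

end Pool.HYP59
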