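import Pool.Agent.H41.HYP.S2
import Pool.Agent.H59.HYP.Inter

/-!
# The local ring of `O[x]` at `(π, γ)`
-/

set_option autoImplicit false

namespace Pool.HYP59

open Polynomial Pool.AVS Pool.HYP

section Gen

variable {R : Type} [CommRing R] [IsDomain R] (m : Ideal R) [m.IsPrime]

/-- Non-zero-divisors stay so in the localization. -/
theorem nzd_loc {x y : R} (h : Nzd x y) :
    Nzd (algebraMap R (Localization.AtPrime m) x) (algebraMap R (Localization.AtPrime m) y) := by
  intro t ht
  obtain ⟨⟨t0, s⟩, hs⟩ := IsLocalization.surj m.primeCompl t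
  simp only at hs
  obtain ⟨c, hc⟩ := ht
  obtain ⟨⟨c0, s'⟩, hs'⟩ := IsLocalization.surj m.primeCompl c
  simp only at hs'
  have hinj : Function.Injective (algebraMap R (Localization.AtPrime m)) :=
    IsLocalization.injective _ m.primeCompl_le_nonZeroDivisors
  have h1 : y * (t0 * (s' : R)) = x * (c0 * (s : R)) := by
    apply hinj
    simp only [map_mul]
    rw [← hs, ← hs']
    linear_combination (algebraMap R (Localization.AtPrime m) (s : R)) *
      (algebraMap R (Localization.AtPrime m) (s' : R)) * hc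
  obtain ⟨d, hd⟩ := h _ ⟨_, h1⟩
  have hu : IsUnit (algebraMap R (Localization.AtPrime m) ((s : R) * (s' : R))) := by
    rw [map_mul]
    exact (IsLocalization.map_units _ s).mul (IsLocalization.map_units _ s')
  obtain ⟨u, hu⟩ := hu
  refine ⟨((u⁻¹ : (Localization.AtPrime m)ˣ) : Localization.AtPrime m) *
    algebraMap R (Localization.AtPrime m) d, ?_⟩
  have h2 : (u : Localization.AtPrime m) *
      ((u⁻¹ : (Localization.AtPrime m)ˣ) : Localization.AtPrime m) = 1 := by simp
  have h3 : t * (u : Localization.AtPrime m) =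
      algebraMap R (Localization.AtPrime m) x * algebraMap R (Localization.AtPrime m) d := by
    rw [hu, map_mul, ← mul_assoc, hs, ← map_mul, ← map_mul, hd]
  linear_combination (-t) * h2 +
    ((u⁻¹ : (Localization.AtPrime m)ˣ) : Localization.AtPrime m) * h3

omit [IsDomain R] in
theorem isUnit_loc {x : R} (h : x ∉ m) : IsUnit (algebraMap R (Localization.AtPrime m) x) :=
  (IsLocalization.AtPrime.isUnit_to_map_iff _ m x).2 h

omit [IsDomain R] in
theorem ilen_max {x y : R} (h : Ideal.span {x, y} = m) :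
    ilen (algebraMap R (Localization.AtPrime m) x) (algebraMap R (Localization.AtPrime m) y)
      = 1 := by
  unfold ilen
  rw [Module.length_eq_one_iff, isSimpleModule_iff_isCoatom, ← Ideal.isMaximal_def]
  have h1 : Ideal.span {algebraMap R (Localization.AtPrime m) x,
      algebraMap R (Localization.AtPrime m) y} =
      IsLocalRing.maximalIdeal (Localization.AtPrime m) := by
    have h2 : Ideal.span {algebraMap R (Localization.AtPrime m) x,
        algebraMap R (Localization.AtPrime m) y} =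
        Ideal.map (algebraMap R (Localization.AtPrime m)) (Ideal.span {x, y}) := by
      rw [Ideal.map_span, Set.image_pair]
    rw [h2, h, IsLocalization.AtPrime.map_eq_maximalIdeal]
  rw [h1]
  exact IsLocalRing.maximalIdeal.isMaximal _

end Gen

section Val

variable {L : Type} [Field L] {O : ValuationSubring L} {π : L}

theorem isUnit_O {x : O} : IsUnit x ↔ (x : L) ≠ 0 ∧ (x : L)⁻¹ ∈ O := by
  constructor
  · rintro ⟨u, rfl⟩
    have h : ((u : O) : L) * (((u⁻¹ : Oˣ) : O) : L) = 1 := by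
      rw [← MulMemClass.coe_mul, Units.mul_inv]; rfl
    have h0 : ((u : O) : L) ≠ 0 := left_ne_zero_of_mul_eq_one h
    refine ⟨h0, ?_⟩
    have : ((u : O) : L)⁻¹ = (((u⁻¹ : Oˣ) : O) : L) := by
      rw [inv_eq_iff_eq_inv]; exact eq_inv_of_mul_eq_one_left h
    rw [this]
    exact SetLike.coe_mem _
  · rintro ⟨h0, h1⟩
    refine IsUnit.of_mul_eq_one (⟨(x : L)⁻¹, h1⟩ : O) ?_
    apply Subtype.ext
    exact mul_inv_cancel₀ h0

theorem res_zero (hL : Loc L O π) {ϖ : O} (hϖ : (ϖ : L) = π) (x : O) :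
    IsLocalRing.residue O x = 0 ↔ ϖ ∣ x := by
  rw [IsLocalRing.residue_eq_zero_iff, IsLocalRing.mem_maximalIdeal, mem_nonunits_iff, isUnit_O]
  by_cases hx : (x : L) = 0
  · have : x = 0 := Subtype.ext hx
    simp [this]
  · constructor
    · intro h
      have h1 : (x : L)⁻¹ ∉ O := fun h' => h ⟨hx, h'⟩
      have h2 := (hL.unif _ (SetLike.coe_mem x) hx).1 h1
      refine ⟨⟨(x : L) / π, h2⟩, ?_⟩
      apply Subtype.ext
      rw [MulMemClass.coe_mul, hϖ]
      field_simp [hL.pi_ne]
    · rintro ⟨c, hc⟩ ⟨_, h'⟩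
      have h2 : (x : L) / π ∈ O := by
        rw [hc, MulMemClass.coe_mul, hϖ, mul_div_cancel_left₀ _ hL.pi_ne]
        exact SetLike.coe_mem c
      exact (hL.unif _ (SetLike.coe_mem x) hx).2 h2 h'

theorem rd_zero (hL : Loc L O π) {ϖ : O} (hϖ : (ϖ : L) = π) (p : O[X]) :
    rd O p = 0 ↔ C ϖ ∣ p := by
  rw [C_dvd_iff_dvd_coeff, Polynomial.ext_iff]
  apply forall_congr'
  intro i
  rw [coeff_map, coeff_zero, res_zero hL hϖ]

theorem rd_surj (p : (IsLocalRing.ResidueField O)[X]) : ∃ q : O[X], rd O q = p :=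
  Polynomial.map_surjective _ IsLocalRing.residue_surjective p

/-- The ideal `(π, γ)`. -/
noncomputable def mx (O : ValuationSubring L) (γ : O[X]) : Ideal O[X] :=
  Ideal.comap (Polynomial.mapRingHom (IsLocalRing.residue O)) (Ideal.span {rd O γ})

theorem mem_mx {γ p : O[X]} : p ∈ mx O γ ↔ rd O γ ∣ rd O p := by
  rw [mx, Ideal.mem_comap, Ideal.mem_span_singleton]
  rfl

theorem mx_max {γ : O[X]} (hγ : Irreducible (rd O γ)) : (mx O γ).IsMaximal := by
  have := PrincipalIdealRing.isMaximal_of_irreducible hγ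
  exact Ideal.comap_isMaximal_of_surjective _
    (Polynomial.map_surjective _ IsLocalRing.residue_surjective)

theorem mx_span (hL : Loc L O π) {ϖ : O} (hϖ : (ϖ : L) = π) (γ : O[X]) :
    Ideal.span {γ, C ϖ} = mx O γ := by
  apply le_antisymm
  · rw [Ideal.span_le]
    rintro p (rfl | hp)
    · exact mem_mx.2 (dvd_refl _)
    · rw [Set.mem_singleton_iff] at hp
      rw [hp]
      have h0 : rd O (C ϖ) = 0 := (rd_zero hL hϖ _).2 (dvd_refl _)
      exact mem_mx.2 (by rw [h0]; exact dvd_zero _)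
  · intro p hp
    obtain ⟨q, hq⟩ := mem_mx.1 hp
    obtain ⟨q, rfl⟩ := rd_surj q
    have h1 : rd O (p - γ * q) = 0 := by
      simp only [rd, Polynomial.map_sub, Polynomial.map_mul] at hq ⊢
      rw [hq, sub_self]
    obtain ⟨r, hr⟩ := (rd_zero hL hϖ _).1 h1
    exact Ideal.mem_span_pair.2 ⟨q, r, by linear_combination (-1) * hr⟩

theorem not_mem_mx {γ p : O[X]} (hγ : Irreducible (rd O γ)) (h : IsCoprime (rd O p) (rd O γ)) :
    p ∉ mx O γ := fun hp => hγ.not_isUnit (h.isUnit_of_dvd' (mem_mx.1 hp) (dvd_refl _))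

theorem cop_of_not_mem {γ p : O[X]} (hγ : Irreducible (rd O γ)) (h : p ∉ mx O γ) :
    IsCoprime (rd O p) (rd O γ) :=
  ((hγ.coprime_iff_not_dvd).2 fun h' => h (mem_mx.2 h')).symm

/-- `π` is not a zero divisor modulo a primitive polynomial. -/
theorem nzd_pi (hL : Loc L O π) {ϖ : O} (hϖ : (ϖ : L) = π) {v : O[X]} (hv : rd O v ≠ 0) :
    Nzd v (C ϖ) := by
  rintro t ⟨c, hc⟩
  have h0 : rd O (C ϖ) = 0 := (rd_zero hL hϖ _).2 (dvd_refl _)
  have h1 : rd O v * rd O c = 0 := by
    have := congrArg (rd O) hc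
    simp only [rd, Polynomial.map_mul] at this h0 ⊢
    rw [← this, h0, zero_mul]
  obtain ⟨d, hd⟩ := (rd_zero hL hϖ c).1 ((mul_eq_zero.1 h1).resolve_left hv)
  have h2 : (C ϖ : O[X]) ≠ 0 := by
    rw [Ne, C_eq_zero]
    rintro rfl
    exact hL.pi_ne hϖ.symm
  exact ⟨d, mul_left_cancel₀ h2 (by rw [hc, hd]; ring)⟩

/-- A polynomial is not a zero divisor modulo `π`. -/
theorem nzd_prim (hL : Loc L O π) {ϖ : O} (hϖ : (ϖ : L) = π) {v : O[X]} (hv : rd O v ≠ 0) :
    Nzd (C ϖ) v := by
  intro t ht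
  rw [← rd_zero hL hϖ] at ht ⊢
  simp only [rd, Polynomial.map_mul] at ht hv ⊢
  exact (mul_eq_zero.1 ht).resolve_left hv

theorem oL_inj : Function.Injective (oL O) :=
  Polynomial.map_injective _ Subtype.val_injective

/-- Divisibility by a monic polynomial over `L` and over `O`. -/
theorem dvd_of_oL {f p : O[X]} (hf : f.Monic) (h : oL O f ∣ oL O p) : f ∣ p :=
  (Polynomial.map_dvd_map _ Subtype.val_injective hf).1 h

/-- Denominators. -/
theorem clear_den (hL : Loc L O π) (p : L[X]) : ∃ (k : ℕ) (q : O[X]),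
    oL O q = C (π ^ k) * p := by
  have h1 : ∀ x : L, ∃ k : ℕ, ∀ j, k ≤ j → π ^ j * x ∈ O := by
    intro x
    by_cases hx : x = 0
    · exact ⟨0, fun j _ => by rw [hx, mul_zero]; exact O.zero_mem⟩
    · obtain ⟨n, hn, -⟩ := hL.arch x hx
      refine ⟨n.natAbs, fun j hj => ?_⟩
      have h2 : 0 ≤ (j : ℤ) + n := by omega
      obtain ⟨l, hl⟩ := Int.eq_ofNat_of_zero_le h2
      have h3 : π ^ j * x = π ^ l * (x / π ^ n) := by
        have h4 : π ^ l = π ^ j * π ^ n := by
          rw [← zpow_natCast π l, ← hl, zpow_add₀ hL.pi_ne, zpow_natCast]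
        rw [h4]
        have := zpow_ne_zero n hL.pi_ne
        field_simp
      rw [h3]
      exact mul_mem (pow_mem hL.pi_mem _) hn
  choose k hk using h1
  refine ⟨(Finset.range (p.natDegree + 1)).sup fun i => k (p.coeff i), ?_⟩
  set K := (Finset.range (p.natDegree + 1)).sup fun i => k (p.coeff i) with hK
  have h2 : ∀ i, π ^ K * p.coeff i ∈ O := by
    intro i
    by_cases hi : i ∈ Finset.range (p.natDegree + 1)
    · exact hk _ _ (Finset.le_sup (f := fun i => k (p.coeff i)) hi)
    · rw [Finset.mem_range, not_lt] at hi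
      rw [coeff_eq_zero_of_natDegree_lt (by omega), mul_zero]
      exact O.zero_mem
  have h3 : C (π ^ K) * p ∈ Polynomial.lifts (algebraMap O L) := by
    rw [Polynomial.lifts_iff_coeff_lifts]
    intro i
    rw [coeff_C_mul]
    exact ⟨⟨_, h2 i⟩, rfl⟩
  rw [Polynomial.mem_lifts] at h3
  exact h3

end Val

end Pool.HYP59
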