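import Pool.Agent.H41.HYP.S4

/-!
# CTM: the number of pairs with local conditions
-/

set_option autoImplicit false

namespace Pool.HYP59

open Polynomial Matrix Pool.AVS Pool.HYP

section Comb

theorem dd_rev {g : ℕ} (μ : Fin g → ℕ) (i : Fin (2 * g + 1)) : dd μ i.rev = -dd μ i := by
  have h1 : ((i.rev : Fin (2 * g + 1)) : ℕ) = 2 * g - i := by rw [Fin.val_rev]; omega
  have h2 : (i : ℕ) ≤ 2 * g := by omega
  unfold dd
  by_cases h : (i : ℕ) < g
  · have h3 : ¬ ((i.rev : Fin (2 * g + 1)) : ℕ) < g := by omega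
    have h4 : 2 * g - ((i.rev : Fin (2 * g + 1)) : ℕ) < g := by omega
    rw [dif_neg h3, dif_pos h4, dif_pos h, neg_neg]
    have h5 : (⟨2 * g - ((i.rev : Fin (2 * g + 1)) : ℕ), h4⟩ : Fin g) = ⟨i, h⟩ := by
      apply Fin.ext; simp only; omega
    rw [h5]
  · by_cases h' : 2 * g - (i : ℕ) < g
    · have h3 : ((i.rev : Fin (2 * g + 1)) : ℕ) < g := by omega
      rw [dif_pos h3, dif_neg h, dif_pos h']
      have h5 : (⟨((i.rev : Fin (2 * g + 1)) : ℕ), h3⟩ : Fin g) = ⟨2 * g - (i : ℕ), h'⟩ := by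
        apply Fin.ext; simp only; omega
      rw [h5]
    · have h3 : ¬ ((i.rev : Fin (2 * g + 1)) : ℕ) < g := by omega
      have h4 : ¬ 2 * g - ((i.rev : Fin (2 * g + 1)) : ℕ) < g := by omega
      rw [dif_neg h3, dif_neg h4, dif_neg h, dif_neg h', neg_zero]

theorem sum_dd {g : ℕ} (μ : Fin g → ℕ) : ∑ i, dd μ i = 0 := by
  have h := Equiv.sum_comp Fin.revPerm (dd μ)
  simp only [Fin.revPerm_apply, dd_rev, Finset.sum_neg_distrib] at h
  omega

theorem sumLe_sym {n : ℕ} (x : Fin n → Fin n → ℤ) (hx : ∀ i j, x i j = x j i) :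
    2 * ∑ i, ∑ j, (if i ≤ j then x i j else 0) = ∑ i, ∑ j, x i j + ∑ i, x i i := by
  have h1 : ∑ i, ∑ j, (if i ≤ j then x i j else 0) = ∑ i, ∑ j, (if j ≤ i then x i j else 0) := by
    rw [Finset.sum_comm]
    refine Finset.sum_congr rfl fun i _ => Finset.sum_congr rfl fun j _ => ?_
    rw [hx]
  have h2 : ∑ i, x i i = ∑ i, ∑ j, (if i = j then x i j else 0) := by
    refine Finset.sum_congr rfl fun i _ => ?_
    rw [Finset.sum_ite_eq]; simp
  rw [two_mul]
  nth_rw 2 [h1]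
  rw [h2, ← Finset.sum_add_distrib, ← Finset.sum_add_distrib]
  refine Finset.sum_congr rfl fun i _ => ?_
  rw [← Finset.sum_add_distrib, ← Finset.sum_add_distrib]
  refine Finset.sum_congr rfl fun j _ => ?_
  rcases lt_trichotomy i j with h | h | h
  · rw [if_pos h.le, if_neg (not_le.2 h), if_neg h.ne]
  · subst h; simp
  · rw [if_neg (not_le.2 h), if_pos h.le, if_neg h.ne']; ring

theorem sumLe_dd {g : ℕ} (μ : Fin g → ℕ) (c : ℤ) (m : ℕ) (hc : c = m)
    (h : ∀ i j, 0 ≤ dd μ i + dd μ j + c) :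
    sumLe (fun i j => (dd μ i + dd μ j + c).toNat) = m * ((2 * g + 1) * (g + 1)) := by
  have h1 := sumLe_sym (fun i j => dd μ i + dd μ j + c) (fun i j => by ring)
  simp only [Finset.sum_add_distrib, Finset.sum_const, Finset.card_univ, Fintype.card_fin,
    sum_dd, add_zero, zero_add, nsmul_eq_mul] at h1
  rw [← Finset.mul_sum, sum_dd, mul_zero, zero_add] at h1
  have h2 : ((sumLe (fun i j => (dd μ i + dd μ j + c).toNat) : ℕ) : ℤ) =
      ∑ i, ∑ j, (if i ≤ j then dd μ i + dd μ j + c else 0) := by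
    unfold sumLe
    push_cast
    refine Finset.sum_congr rfl fun i _ => Finset.sum_congr rfl fun j _ => ?_
    split_ifs
    · rw [Int.toNat_of_nonneg (h i j)]
    · rfl
  rw [← h2] at h1
  have h3 : (2 * sumLe (fun i j => (dd μ i + dd μ j + c).toNat) : ℤ) =
      2 * (m * ((2 * g + 1) * (g + 1))) := by
    rw [h1, hc]; push_cast; ring
  have h4 : (sumLe (fun i j => (dd μ i + dd μ j + c).toNat) : ℤ) =
      (m * ((2 * g + 1) * (g + 1)) : ℤ) := by linarith
  exact_mod_cast h4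

theorem dd_low {g h e : ℕ} (μ : Fin g → ℕ) (hg : 1 ≤ g) (hμ : ∀ i, 2 * μ i + e ≤ h + 1)
    (i : Fin (2 * g + 1)) : (e : ℤ) ≤ h + 1 + 2 * dd μ i := by
  have h0 := hμ ⟨0, hg⟩
  unfold dd
  split_ifs with h1 h2
  · have := hμ ⟨i, h1⟩
    omega
  · have : (0 : ℤ) ≤ μ ⟨2 * g - (i : ℕ), h2⟩ := by positivity
    omega
  · omega

theorem prod_half {ι : Type} (s : Finset ι) (x : ι → ℝ) (h0 : ∀ i ∈ s, 0 ≤ x i)
    (h1 : ∀ i ∈ s, x i ≤ 1) : 1 - ∑ i ∈ s, x i ≤ ∏ i ∈ s, (1 - x i) := by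
  classical
  induction s using Finset.induction_on with
  | empty => simp
  | insert a s ha ih =>
    rw [Finset.sum_insert ha, Finset.prod_insert ha]
    have ih' := ih (fun i hi => h0 i (Finset.mem_insert_of_mem hi))
      (fun i hi => h1 i (Finset.mem_insert_of_mem hi))
    have ha0 := h0 a (Finset.mem_insert_self _ _)
    have ha1 := h1 a (Finset.mem_insert_self _ _)
    have hs : 0 ≤ ∑ i ∈ s, x i :=
      Finset.sum_nonneg fun i hi => h0 i (Finset.mem_insert_of_mem hi)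
    nlinarith

/-- `∏ (Q - n) ≥ ∏ Q / 2`. -/
theorem prod_sub {ι : Type} (s : Finset ι) (n : ℕ) (Q : ι → ℕ)
    (hQ : ∀ i ∈ s, 2 * n * s.card ≤ Q i) (hn : 1 ≤ n) :
    ∏ i ∈ s, Q i ≤ 2 * ∏ i ∈ s, (Q i - n) := by
  rcases s.eq_empty_or_nonempty with rfl | hs
  · simp
  have hc : 1 ≤ s.card := hs.card_pos
  have hQ1 : ∀ i ∈ s, 2 * n ≤ Q i := fun i hi => by nlinarith [hQ i hi]
  have hQ0 : ∀ i ∈ s, (0 : ℝ) < Q i := fun i hi => by
    have := hQ1 i hi
    exact_mod_cast (by omega : 0 < Q i)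
  have h1 := prod_half s (fun i => (n : ℝ) / Q i) (fun i hi => by have := hQ0 i hi; positivity)
    (fun i hi => by
      rw [div_le_one (hQ0 i hi)]
      have := hQ1 i hi
      exact_mod_cast (by omega : n ≤ Q i))
  have h2 : ∑ i ∈ s, (n : ℝ) / Q i ≤ 1 / 2 := by
    calc ∑ i ∈ s, (n : ℝ) / Q i ≤ ∑ i ∈ s, (1 / (2 * s.card) : ℝ) := by
          apply Finset.sum_le_sum
          intro i hi
          rw [div_le_div_iff₀ (hQ0 i hi) (by positivity)]
          have := hQ i hi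
          have h3 : ((2 * n * s.card : ℕ) : ℝ) ≤ Q i := by exact_mod_cast this
          push_cast at h3
          linarith
      _ = 1 / 2 := by
          rw [Finset.sum_const, nsmul_eq_mul]
          have : (s.card : ℝ) ≠ 0 := by positivity
          field_simp
  have h3 : (∏ i ∈ s, (Q i : ℝ)) * ∏ i ∈ s, (1 - (n : ℝ) / Q i) =
      ∏ i ∈ s, ((Q i - n : ℕ) : ℝ) := by
    rw [← Finset.prod_mul_distrib]
    apply Finset.prod_congr rfl
    intro i hi
    have := hQ0 i hi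
    have h4 : n ≤ Q i := by have := hQ1 i hi; omega
    rw [Nat.cast_sub h4]
    field_simp
  have h5 : (0 : ℝ) ≤ ∏ i ∈ s, (Q i : ℝ) := Finset.prod_nonneg fun i _ => by positivity
  have h6 : (∏ i ∈ s, (Q i : ℝ)) ≤ 2 * ∏ i ∈ s, ((Q i - n : ℕ) : ℝ) := by
    rw [← h3]
    nlinarith
  exact_mod_cast h6

end Comb

section Red

variable {R S : Type} [CommRing R] [CommRing S]

theorem tau_map (φ : R →+* S) {f : R[X]} (hf : f.Monic) (p : R[X]) (hφ : (1 : S) ≠ 0) :
    tau (f.map φ) (p.map φ) = φ (tau f p) := by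
  have : Nontrivial S := ⟨⟨1, 0, hφ⟩⟩
  unfold tau
  rw [← Polynomial.map_modByMonic φ hf, coeff_map, hf.natDegree_map]

theorem gr_map (φ : R →+* S) {f : R[X]} (hf : f.Monic) (k n : ℕ) (hφ : (1 : S) ≠ 0) :
    (gr k n f 1).map φ = gr k n (f.map φ) 1 := by
  ext i j
  rw [Matrix.map_apply]
  simp only [gr, Matrix.of_apply, mul_one]
  rw [← tau_map φ hf _ hφ, Polynomial.map_pow, map_X]

end Red

section Count

variable {F : Type} [Field F]

/-- The possible residues of `S` for given residues of `G`. -/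
def XP (g : ℕ) (D : Dat F) (G : Matrix (Fin (2 * g + 1)) (Fin (2 * g + 1)) F[X]) (P : F[X]) :
    Set (Matrix (Fin (2 * g + 1)) (Fin (2 * g + 1)) (AdjoinRoot P)) :=
  {S | ∃ a : Matrix (Fin (2 * g + 1)) (Fin (2 * g + 1)) (AdjoinRoot P), a.det ≠ 0 ∧
    G.map (AdjoinRoot.mk P) = aᵀ * gr 0 (2 * g + 1)
      ((X - C (AdjoinRoot.mk P (D.c P))) * (D.γ P).map (AdjoinRoot.mk P)) 1 * a ∧
    S = aᵀ * gr 1 (2 * g + 1)
      ((X - C (AdjoinRoot.mk P (D.c P))) * (D.γ P).map (AdjoinRoot.mk P)) 1 * a}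

theorem map_cong {n : ℕ} {P : F[X]} {A B : Matrix (Fin n) (Fin n) F[X]}
    (h : ∀ i j, P ∣ (A - B) i j) : A.map (AdjoinRoot.mk P) = B.map (AdjoinRoot.mk P) := by
  ext i j
  rw [Matrix.map_apply, Matrix.map_apply, AdjoinRoot.mk_eq_mk]
  exact h i j

theorem mem_XP {g : ℕ} {D : Dat F} {h : ℕ} {f : F[X][X]} (hf : f ∈ Fam g D h) {P : F[X]}
    (hP : P ∈ D.T) (hPi : Irreducible P)
    {G S : Matrix (Fin (2 * g + 1)) (Fin (2 * g + 1)) F[X]} (hst : StdP (2 * g + 1) P f G S) :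
    S.map (AdjoinRoot.mk P) ∈ XP g D G P := by
  obtain ⟨a, ha, hG, hS⟩ := hst
  have hnt : (1 : AdjoinRoot P) ≠ 0 := by
    have := Fact.mk hPi
    exact one_ne_zero
  have hfm : f.map (AdjoinRoot.mk P) =
      (X - C (AdjoinRoot.mk P (D.c P))) * (D.γ P).map (AdjoinRoot.mk P) := by
    obtain ⟨r, hr⟩ := hf.2.2.2 P hP
    have h1 : f = (X - C (D.c P)) * D.γ P + C P * r := by linear_combination hr
    have h2 : (AdjoinRoot.mk P) P = 0 := AdjoinRoot.mk_self
    rw [h1, Polynomial.map_add, Polynomial.map_mul, Polynomial.map_mul, Polynomial.map_sub,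
      Polynomial.map_X, Polynomial.map_C, Polynomial.map_C, h2, C_0, zero_mul, add_zero]
  have hcomp : ∀ k, (aᵀ * gr k (2 * g + 1) f 1 * a).map (AdjoinRoot.mk P) =
      (a.map (AdjoinRoot.mk P))ᵀ * gr k (2 * g + 1)
      ((X - C (AdjoinRoot.mk P (D.c P))) * (D.γ P).map (AdjoinRoot.mk P)) 1 *
      a.map (AdjoinRoot.mk P) := by
    intro k
    rw [Matrix.map_mul, Matrix.map_mul, gr_map _ hf.1 _ _ hnt, hfm, Matrix.transpose_map]
  refine ⟨a.map (AdjoinRoot.mk P), ?_, ?_, ?_⟩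
  · rw [← RingHom.mapMatrix_apply, ← RingHom.map_det]
    intro h0
    exact ha (AdjoinRoot.mk_eq_zero.1 h0)
  · rw [map_cong hG, hcomp]
  · rw [map_cong hS, hcomp]

theorem card_AR [Finite F] {P : F[X]} (hP : P.Monic) :
    Nat.card (AdjoinRoot P) = Nat.card F ^ P.natDegree := by
  have : Module.Finite F (AdjoinRoot P) := hP.finite_adjoinRoot
  have : Module.Free F (AdjoinRoot P) := hP.free_adjoinRoot
  rw [Module.natCard_eq_pow_finrank (K := F), (AdjoinRoot.powerBasis' hP).finrank,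
    AdjoinRoot.powerBasis'_dim]

theorem card_XP [Finite F] (h2 : (2 : F) ≠ 0) (hCTX : CTXStmt) {g : ℕ} (hg : 1 ≤ g) {D : Dat F}
    {P : F[X]} (hok : OkP g P (D.γ P))
    (G : Matrix (Fin (2 * g + 1)) (Fin (2 * g + 1)) F[X]) :
    2 * (Nat.card F ^ P.natDegree - (2 * g + 1)) * (XP g D G P).ncard ≤
      Nat.card F ^ P.natDegree * (Nat.card F ^ P.natDegree) ^ ((2 * g + 1) * g) := by
  obtain ⟨hPm, hPi, hγm, hγd, hγi⟩ := hok
  have := Fact.mk hPi
  have hc := card_AR hPm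
  have : Finite (AdjoinRoot P) := by
    have : Module.Finite F (AdjoinRoot P) := hPm.finite_adjoinRoot
    exact Module.finite_of_finite F
  have h2' : (2 : AdjoinRoot P) ≠ 0 := by
    have h3 : (algebraMap F (AdjoinRoot P)) 2 ≠ 0 := by
      rw [Ne, map_eq_zero_iff _ (algebraMap F (AdjoinRoot P)).injective]; exact h2
    rwa [map_ofNat] at h3
  have hnt : Nontrivial (AdjoinRoot P) := inferInstance
  have hkey := hCTX (AdjoinRoot P) h2' g (AdjoinRoot.mk P (D.c P))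
    ((D.γ P).map (AdjoinRoot.mk P)) hg (hγm.map _) (by rw [hγm.natDegree_map, hγd]) hγi
    (G.map (AdjoinRoot.mk P))
  rw [hc] at hkey
  exact hkey

/-- The product of the local factors. -/
theorem prod_XP [Finite F] (h2 : (2 : F) ≠ 0) (hCTX : CTXStmt) {g : ℕ} (hg : 1 ≤ g) {D : Dat F}
    (hok : D.Ok g) (hT : ∀ P ∈ D.T, 2 * (2 * g + 1) * D.T.card ≤ Nat.card F ^ P.natDegree)
    (G : Matrix (Fin (2 * g + 1)) (Fin (2 * g + 1)) F[X]) :
    2 ^ D.T.card * ∏ P ∈ D.T, (XP g D G P).ncard ≤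
      2 * Nat.card F ^ (D.deg * ((2 * g + 1) * g)) := by
  have h1 : ∏ P ∈ D.T, (2 * (Nat.card F ^ P.natDegree - (2 * g + 1)) * (XP g D G P).ncard) ≤
      ∏ P ∈ D.T, (Nat.card F ^ P.natDegree * (Nat.card F ^ P.natDegree) ^ ((2 * g + 1) * g)) :=
    Finset.prod_le_prod' fun P hP => card_XP h2 hCTX hg (hok.1 P hP) G
  have h3 := prod_sub D.T (2 * g + 1) (fun P => Nat.card F ^ P.natDegree) hT (by omega)
  rw [Finset.prod_mul_distrib, Finset.prod_mul_distrib, Finset.prod_const,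
    Finset.prod_mul_distrib, Finset.prod_pow] at h1
  have h4 : ∏ P ∈ D.T, Nat.card F ^ P.natDegree = Nat.card F ^ D.deg := by
    rw [Finset.prod_pow_eq_pow_sum]; rfl
  rw [h4] at h1 h3
  have hq : 0 < Nat.card F ^ D.deg := pow_pos Nat.card_pos _
  apply Nat.le_of_mul_le_mul_left _ hq
  calc Nat.card F ^ D.deg * (2 ^ D.T.card * ∏ P ∈ D.T, (XP g D G P).ncard)
      ≤ (2 * ∏ P ∈ D.T, (Nat.card F ^ P.natDegree - (2 * g + 1))) *
        (2 ^ D.T.card * ∏ P ∈ D.T, (XP g D G P).ncard) := Nat.mul_le_mul_right _ h3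
    _ = 2 * (2 ^ D.T.card * (∏ P ∈ D.T, (Nat.card F ^ P.natDegree - (2 * g + 1))) *
        ∏ P ∈ D.T, (XP g D G P).ncard) := by ring
    _ ≤ 2 * (Nat.card F ^ D.deg * (Nat.card F ^ D.deg) ^ ((2 * g + 1) * g)) :=
        Nat.mul_le_mul_left _ h1
    _ = Nat.card F ^ D.deg * (2 * Nat.card F ^ (D.deg * ((2 * g + 1) * g))) := by
        rw [pow_mul]; ring

end Count

end Pool.HYP59

namespace Pool.HYP

open Polynomial Matrix Pool.AVS Pool.HYP59

theorem ctm (hCTS : CTSStmt) (hCTR : CTRStmt) (hCTX : CTXStmt) : CTMStmt := by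
  intro F _ _ h2 g D h μ hg hok hT hμ
  classical
  have hdeg : D.deg ≤ h + 1 := by have := hμ ⟨0, hg⟩; omega
  obtain ⟨m, hm⟩ := Nat.exists_eq_add_of_le hdeg
  have hlow := dd_low μ hg hμ
  obtain ⟨hGf, hGc⟩ := hCTS F (2 * g + 1) (fun i j => dd μ i + dd μ j)
  obtain ⟨hSf, -⟩ := hCTS F (2 * g + 1) (fun i j => dd μ i + dd μ j + h)
  -- the number of matrices `S`
  have hS : ∀ G : Matrix (Fin (2 * g + 1)) (Fin (2 * g + 1)) F[X],
      2 ^ D.T.card * {S : Matrix (Fin (2 * g + 1)) (Fin (2 * g + 1)) F[X] | Sᵀ = S ∧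
        (∀ i j, DegLe (S i j) (dd μ i + dd μ j + h)) ∧
        ∀ P ∈ D.T, S.map (AdjoinRoot.mk P) ∈ XP g D G P}.ncard ≤
      2 * Nat.card F ^ (D.deg * ((2 * g + 1) * g)) *
        Nat.card F ^ (m * ((2 * g + 1) * (g + 1))) := by
    intro G
    have h1 := hCTR F (2 * g + 1) D.T (fun P hP => ⟨(hok.1 P hP).1, (hok.1 P hP).2.1⟩)
      (XP g D G) (fun i j => dd μ i + dd μ j + h) (fun i j => by
        have := hlow i
        have := hlow j
        change ((D.deg : ℕ) : ℤ) ≤ _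
        omega)
    have h3 : sumLe (fun i j => (dd μ i + dd μ j + (h : ℤ) + 1 -
        ((∑ P ∈ D.T, P.natDegree : ℕ) : ℤ)).toNat) = m * ((2 * g + 1) * (g + 1)) := by
      have h4 := sumLe_dd μ ((h : ℤ) + 1 - (D.deg : ℤ)) m (by omega) (fun i j => by
        have := hlow i
        have := hlow j
        omega)
      rw [← h4]
      congr 1
      funext i j
      congr 1
      change dd μ i + dd μ j + (h : ℤ) + 1 - ((D.deg : ℕ) : ℤ) = _
      ring
    rw [h3] at h1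
    calc _ ≤ 2 ^ D.T.card * ((∏ P ∈ D.T, (XP g D G P).ncard) *
          Nat.card F ^ (m * ((2 * g + 1) * (g + 1)))) := Nat.mul_le_mul_left _ h1
      _ = (2 ^ D.T.card * ∏ P ∈ D.T, (XP g D G P).ncard) *
          Nat.card F ^ (m * ((2 * g + 1) * (g + 1))) := by ring
      _ ≤ _ := Nat.mul_le_mul_right _ (prod_XP h2 hCTX hg hok hT G)
  -- finiteness
  have hsub : PP g D h μ ⊆ {G : Matrix (Fin (2 * g + 1)) (Fin (2 * g + 1)) F[X] | Gᵀ = G ∧
      ∀ i j, DegLe (G i j) (dd μ i + dd μ j)} ×ˢ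
      {G : Matrix (Fin (2 * g + 1)) (Fin (2 * g + 1)) F[X] | Gᵀ = G ∧
      ∀ i j, DegLe (G i j) (dd μ i + dd μ j + h)} := by
    rintro ⟨G, S⟩ ⟨f, -, hPM⟩
    exact ⟨⟨hPM.1, hPM.2.2.1⟩, ⟨hPM.2.1, hPM.2.2.2.1⟩⟩
  have hPf : (PP g D h μ).Finite := (hGf.prod hSf).subset hsub
  have hcount : 2 ^ D.T.card * (PP g D h μ).ncard ≤
      Nat.card F ^ EG μ * (2 * Nat.card F ^ (D.deg * ((2 * g + 1) * g)) *
        Nat.card F ^ (m * ((2 * g + 1) * (g + 1)))) := by
    have hmap : ∀ p ∈ hPf.toFinset, Prod.fst p ∈ hGf.toFinset := by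
      intro p hp
      rw [Set.Finite.mem_toFinset] at hp ⊢
      exact (hsub hp).1
    rw [Set.ncard_eq_toFinset_card _ hPf, Finset.card_eq_sum_card_fiberwise hmap,
      Finset.mul_sum]
    calc _ ≤ ∑ G ∈ hGf.toFinset, (2 * Nat.card F ^ (D.deg * ((2 * g + 1) * g)) *
          Nat.card F ^ (m * ((2 * g + 1) * (g + 1)))) := by
          apply Finset.sum_le_sum
          intro G _
          refine le_trans (Nat.mul_le_mul_left _ ?_) (hS G)
          have hfin : {S : Matrix (Fin (2 * g + 1)) (Fin (2 * g + 1)) F[X] | Sᵀ = S ∧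
              (∀ i j, DegLe (S i j) (dd μ i + dd μ j + h)) ∧
              ∀ P ∈ D.T, S.map (AdjoinRoot.mk P) ∈ XP g D G P}.Finite :=
            hSf.subset fun S hS => ⟨hS.1, hS.2.1⟩
          rw [Set.ncard_eq_toFinset_card _ hfin]
          apply Finset.card_le_card_of_injOn Prod.snd
          · rintro ⟨G', S⟩ hp
            rw [Finset.mem_coe, Finset.mem_filter, Set.Finite.mem_toFinset] at hp
            obtain ⟨⟨f, hf, hPM⟩, rfl⟩ := hp
            rw [Finset.mem_coe, Set.Finite.mem_toFinset]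
            exact ⟨hPM.2.1, hPM.2.2.2.1, fun P hP =>
              mem_XP hf hP (hok.1 P hP).2.1 (hPM.2.2.2.2.2.2.1 P hP)⟩
          · rintro ⟨G', S⟩ hp ⟨G'', S'⟩ hp' hSS
            rw [Finset.mem_coe, Finset.mem_filter] at hp hp'
            exact Prod.ext (hp.2.trans hp'.2.symm) hSS
      _ = hGf.toFinset.card * (2 * Nat.card F ^ (D.deg * ((2 * g + 1) * g)) *
          Nat.card F ^ (m * ((2 * g + 1) * (g + 1)))) := by
          rw [Finset.sum_const, smul_eq_mul]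
      _ ≤ _ := by
          apply Nat.mul_le_mul_right
          rw [← Set.ncard_eq_toFinset_card _ hGf]
          exact hGc
  calc _ ≤ (Nat.card F ^ EG μ * (2 * Nat.card F ^ (D.deg * ((2 * g + 1) * g)) *
        Nat.card F ^ (m * ((2 * g + 1) * (g + 1))))) * Nat.card F ^ (D.deg * (2 * g + 1)) :=
        Nat.mul_le_mul_right _ hcount
    _ = 2 * Nat.card F ^ (EG μ + (h + 1) * ((2 * g + 1) * (g + 1))) := by
        have h5 : EG μ + (h + 1) * ((2 * g + 1) * (g + 1)) = EG μ + (D.deg * ((2 * g + 1) * g) +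
            (m * ((2 * g + 1) * (g + 1)) + D.deg * (2 * g + 1))) := by
          rw [hm]; ring
        rw [h5, pow_add, pow_add, pow_add]
        ring

end Pool.HYP
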