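import Pool.Agent.H59.HYP.Loc

/-!
# EV1: parity of the orders of `v`
-/

set_option autoImplicit false

namespace Pool.HYP59

open Polynomial Pool.AVS Pool.HYP

section Main

variable {L : Type} [Field L] {O : ValuationSubring L} {π : L}

/-- The element `p` of the local ring at `(π, γ)`. -/
noncomputable abbrev lo {γ : O[X]} (hγ : (mx O γ).IsPrime) (p : O[X]) :
    Localization.AtPrime (mx O γ) := algebraMap O[X] (Localization.AtPrime (mx O γ)) p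

theorem oL_pi {ϖ : O} (hϖ : (ϖ : L) = π) (i : ℕ) : oL O (C (ϖ ^ i)) = C (π ^ i) := by
  rw [oL, Polynomial.map_C, map_pow, ← hϖ]; rfl

variable (hL : Loc L O π) {ϖ : O} (hϖ : (ϖ : L) = π) {γ : O[X]} (hγ : Irreducible (rd O γ))
  (hp : (mx O γ).IsPrime)

include hL hϖ in
theorem len_g_pi : ilen (lo hp γ) (lo hp (C ϖ)) = 1 :=
  ilen_max _ (mx_span hL hϖ γ)

include hL hϖ in
theorem len_pi_g : ilen (lo hp (C ϖ)) (lo hp γ) = 1 := by
  rw [ilen_comm]; exact len_g_pi hL hϖ hp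

theorem lo_mul (p q : O[X]) : lo hp (p * q) = lo hp p * lo hp q := map_mul _ _ _

theorem lo_pow (p : O[X]) (n : ℕ) : lo hp (p ^ n) = lo hp p ^ n := map_pow _ _ _

theorem lo_dvd {x y z : O[X]} (h : x ∣ y - z) : lo hp x ∣ lo hp y - lo hp z := by
  have := map_dvd (algebraMap O[X] (Localization.AtPrime (mx O γ))) h
  rwa [map_sub] at this

theorem lo_unit {p : O[X]} (h : p ∉ mx O γ) : IsUnit (lo hp p) := isUnit_loc _ h

include hγ in
theorem lo_unit' {p : O[X]} (h : IsCoprime (rd O p) (rd O γ)) : IsUnit (lo hp p) :=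
  lo_unit hp (not_mem_mx hγ h)

/-- `f` in the local ring. -/
theorem f_split (hL : Loc L O π) {ϖ : O} (hϖ : (ϖ : L) = π) {f γ : O[X]}
    (hγ : Irreducible (rd O γ)) (hsq : ¬ InSq ϖ f γ) (h2 : rd O γ ^ 2 ∣ rd O f) :
    ∃ a b : O[X], f = γ ^ 2 * a + C ϖ * b ∧ b ∉ mx O γ := by
  obtain ⟨a, ha⟩ := h2
  obtain ⟨a, rfl⟩ := rd_surj a
  have h1 : rd O (f - γ ^ 2 * a) = 0 := by
    simp only [rd, Polynomial.map_sub, Polynomial.map_mul, Polynomial.map_pow] at ha ⊢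
    rw [ha, sub_self]
  obtain ⟨b, hb⟩ := (rd_zero hL hϖ _).1 h1
  refine ⟨a, b, by linear_combination hb, fun hbm => hsq ?_⟩
  rw [← mx_span hL hϖ] at hbm
  obtain ⟨p, q, hpq⟩ := Ideal.mem_span_pair.1 hbm
  refine ⟨a, p, q, ?_⟩
  rw [C_pow]
  linear_combination hb - (C ϖ) * hpq

include hL hϖ hγ in
/-- The uniformizer: not a zero divisor, length one. -/
theorem unf_spec {f : O[X]} (hf : f.Monic) (hd : rd O γ ∣ rd O f) (hsq : ¬ InSq ϖ f γ) :
    Nzd (lo hp f) (lo hp (unf O ϖ f γ)) ∧ ilen (lo hp f) (lo hp (unf O ϖ f γ)) = 1 := by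
  have hf0 : rd O f ≠ 0 := (hf.map _).ne_zero
  have hn : Nzd (lo hp f) (lo hp (C ϖ)) := nzd_loc _ (nzd_pi hL hϖ hf0)
  by_cases h2 : rd O γ ^ 2 ∣ rd O f
  · have hu : unf O ϖ f γ = γ := by unfold unf; rw [if_pos h2]
    rw [hu]
    obtain ⟨a, b, hab, hb⟩ := f_split hL hϖ hγ hsq h2
    have hbu := lo_unit hp hb
    constructor
    · have h3 : Nzd (lo hp f) (lo hp (C ϖ) * lo hp b) := hn.mul (nzd_unit hbu)
      have h4 : Nzd (lo hp f) (lo hp γ * lo hp (-(γ * a))) := by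
        apply h3.congr
        rw [← lo_mul, ← lo_mul]
        exact lo_dvd hp ⟨1, by rw [hab]; ring⟩
      exact h4.of_mul
    · rw [ilen_comm]
      have h3 : ilen (lo hp γ) (lo hp f) = ilen (lo hp γ) (lo hp b * lo hp (C ϖ)) := by
        apply ilen_dvd
        rw [← lo_mul]
        exact lo_dvd hp ⟨γ * a, by rw [hab]; ring⟩
      rw [h3, ilen_unit hbu, len_g_pi hL hϖ hp]
  · have hu : unf O ϖ f γ = C ϖ := by unfold unf; rw [if_neg h2]
    rw [hu]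
    refine ⟨hn, ?_⟩
    rw [ilen_comm]
    obtain ⟨a, ha⟩ := hd
    obtain ⟨a, rfl⟩ := rd_surj a
    have h1 : rd O (f - a * γ) = 0 := by
      simp only [rd, Polynomial.map_sub, Polynomial.map_mul] at ha ⊢
      rw [ha]; ring
    have h3 : ilen (lo hp (C ϖ)) (lo hp f) = ilen (lo hp (C ϖ)) (lo hp a * lo hp γ) := by
      apply ilen_dvd
      rw [← lo_mul]
      exact lo_dvd hp ((rd_zero hL hϖ _).1 h1)
    have ham : a ∉ mx O γ := by
      intro h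
      obtain ⟨c, hc⟩ := mem_mx.1 h
      exact h2 ⟨c, by rw [ha, hc]; ring⟩
    rw [h3, ilen_unit (lo_unit hp ham), len_pi_g hL hϖ hp]

include hL hϖ hγ in
/-- The order is the length. -/
theorem val_len {f v : O[X]} {n : ℤ} (hf : f.Monic) (hd : rd O γ ∣ rd O f)
    (hsq : ¬ InSq ϖ f γ) (hv : VAL O ϖ f γ n (oL O v)) :
    ∃ e : ℕ, ilen (lo hp f) (lo hp v) = e ∧ (e : ℤ) = n := by
  obtain ⟨a, b, k, m, ha, hb, hmk, hdv⟩ := hv
  obtain ⟨hn, h1⟩ := unf_spec hL hϖ hγ hp hf hd hsq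
  have h2 : f ∣ a * (unf O ϖ f γ ^ k * v) - b * unf O ϖ f γ ^ m := by
    apply dvd_of_oL hf
    convert hdv using 1
    simp only [oL, Polynomial.map_sub, Polynomial.map_mul, Polynomial.map_pow]
    ring
  have h3 : ilen (lo hp f) (lo hp (a * (unf O ϖ f γ ^ k * v))) =
      ilen (lo hp f) (lo hp (b * unf O ϖ f γ ^ m)) := ilen_dvd (lo_dvd hp h2)
  rw [lo_mul, lo_mul hp b, ilen_unit (lo_unit' hγ hp ha), ilen_unit (lo_unit' hγ hp hb), lo_mul,
    lo_pow, lo_pow, ilen_mul (hn.pow k), ilen_pow hn, ilen_pow hn, h1, mul_one, mul_one] at h3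
  have h4 : ilen (lo hp f) (lo hp v) ≠ ⊤ := by
    intro h
    rw [h, add_top] at h3
    exact ENat.natCast_ne_top m h3.symm
  obtain ⟨e, he⟩ := ENat.ne_top_iff_exists.1 h4
  refine ⟨e, he.symm, ?_⟩
  rw [← he] at h3
  have h5 : k + e = m := by exact_mod_cast h3
  omega

include hL hϖ hγ in
/-- Finite length modulo `π`. -/
theorem len_fin {v : O[X]} (hv : rd O v ≠ 0) :
    ∃ e : ℕ, ilen (lo hp v) (lo hp (C ϖ)) = e := by
  have hfin : FiniteMultiplicity (rd O γ) (rd O v) :=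
    FiniteMultiplicity.of_prime_left hγ.prime hv
  obtain ⟨c, hc, hcn⟩ := hfin.exists_eq_pow_mul_and_not_dvd
  obtain ⟨c, rfl⟩ := rd_surj c
  refine ⟨multiplicity (rd O γ) (rd O v), ?_⟩
  set e := multiplicity (rd O γ) (rd O v) with he
  have h1 : rd O (v - c * γ ^ e) = 0 := by
    simp only [rd, Polynomial.map_sub, Polynomial.map_mul, Polynomial.map_pow] at hc ⊢
    rw [hc]; ring
  have hcm : c ∉ mx O γ := fun h => hcn (mem_mx.1 h)
  have h3 : ilen (lo hp (C ϖ)) (lo hp v) = ilen (lo hp (C ϖ)) (lo hp c * lo hp γ ^ e) := by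
    apply ilen_dvd
    rw [← lo_pow, ← lo_mul]
    exact lo_dvd hp ((rd_zero hL hϖ _).1 h1)
  have hng : Nzd (lo hp (C ϖ)) (lo hp γ) := nzd_loc _ (nzd_prim hL hϖ hγ.ne_zero)
  rw [ilen_comm, h3, ilen_unit (lo_unit hp hcm), ilen_pow hng, len_pi_g hL hϖ hp, mul_one]

include hL hϖ in
/-- `f` is not a zero divisor modulo `v`. -/
theorem nzd_cop {v f : O[X]} (hv : rd O v ≠ 0) (hc : IsCoprime (oL O v) (oL O f)) :
    Nzd v f := by
  obtain ⟨x, y, hxy⟩ := hc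
  obtain ⟨k, x', hx⟩ := clear_den hL x
  obtain ⟨l, y', hy⟩ := clear_den hL y
  have h1 : C (ϖ ^ (k + l)) = C (ϖ ^ l) * x' * v + C (ϖ ^ k) * y' * f := by
    apply oL_inj
    have e4 : oL O (C (ϖ ^ l) * x' * v + C (ϖ ^ k) * y' * f) =
        oL O (C (ϖ ^ l)) * oL O x' * oL O v + oL O (C (ϖ ^ k)) * oL O y' * oL O f := by
      simp only [oL, Polynomial.map_add, Polynomial.map_mul]
    rw [e4, oL_pi hϖ, oL_pi hϖ, oL_pi hϖ, hx, hy, pow_add, C_mul]
    linear_combination (-(C (π ^ k) * C (π ^ l))) * hxy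
  have h2 : Nzd v (C ϖ ^ (k + l)) := (nzd_pi hL hϖ hv).pow _
  have h3 : Nzd v (f * (C (ϖ ^ k) * y')) := by
    apply h2.congr
    rw [← C_pow, h1]
    exact ⟨C (ϖ ^ l) * x', by ring⟩
  exact h3.of_mul

end Main

end Pool.HYP59

namespace Pool.HYP

open Polynomial Pool.AVS Pool.HYP59

theorem ev1 : EV1Stmt := by
  intro L _ O π hL ϖ f γ v w δ n hϖ hf _ hγ hd hsq hv hcop hδ hw hV
  have hm := mx_max hγ
  have hp := hm.isPrime
  obtain ⟨e, he, hen⟩ := val_len hL hϖ hγ hp hf hd hsq hV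
  obtain ⟨j, hj⟩ := len_fin hL hϖ hγ hp hv
  obtain ⟨r, hr⟩ := hw
  obtain ⟨k, w', hw'⟩ := clear_den hL w
  obtain ⟨l, r', hr'⟩ := clear_den hL r
  obtain ⟨δ', hδ'⟩ : ∃ δ' : O, (δ' : L) = δ := ⟨⟨δ, hδ.2.1⟩, rfl⟩
  have hδu : IsUnit δ' := isUnit_O.2 (by rw [hδ']; exact ⟨hδ.1, hδ.2.2⟩)
  set K := k + l with hK
  have key : (C (ϖ ^ l) * w') * (C (ϖ ^ l) * w') - C δ' * (C ϖ ^ (2 * K) * f) =
      v * (C (ϖ ^ (2 * k + l)) * r') := by
    apply oL_inj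
    have e2 : oL O (C δ') = C δ := by
      simp only [oL, Polynomial.map_C]; rw [← hδ']; rfl
    have e3 : oL O ((C (ϖ ^ l) * w') * (C (ϖ ^ l) * w') - C δ' * (C ϖ ^ (2 * K) * f)) =
        (oL O (C (ϖ ^ l)) * oL O w') * (oL O (C (ϖ ^ l)) * oL O w') -
          oL O (C δ') * (oL O (C (ϖ ^ (2 * K))) * oL O f) := by
      rw [show (C ϖ ^ (2 * K) : O[X]) = C (ϖ ^ (2 * K)) from (C_pow).symm]
      simp only [oL, Polynomial.map_sub, Polynomial.map_mul]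
    have e4 : oL O (v * (C (ϖ ^ (2 * k + l)) * r')) =
        oL O v * (oL O (C (ϖ ^ (2 * k + l))) * oL O r') := by
      simp only [oL, Polynomial.map_mul]
    rw [e3, e4, oL_pi hϖ, oL_pi hϖ, oL_pi hϖ, e2, hw', hr', hK]
    simp only [C_pow]
    linear_combination (C π ^ (2 * (k + l))) * hr
  have hn1 : Nzd (lo hp v) (lo hp (C ϖ)) := nzd_loc _ (nzd_pi hL hϖ hv)
  have hn2 : Nzd (lo hp v) (lo hp f) := nzd_loc _ (nzd_cop hL hϖ hv hcop)
  have hu : IsUnit (lo hp (C δ')) := by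
    apply lo_unit hp
    intro h
    have h1 : IsUnit (C δ' : O[X]) := hδu.map C
    exact hm.ne_top (Ideal.eq_top_of_isUnit_mem _ h h1)
  set a := C (ϖ ^ l) * w' with ha
  have h1 : lo hp v ∣ lo hp (a * a) - lo hp (C δ' * (C ϖ ^ (2 * K) * f)) :=
    lo_dvd hp ⟨_, key⟩
  have hn3 : Nzd (lo hp v) (lo hp (C δ' * (C ϖ ^ (2 * K) * f))) := by
    rw [lo_mul, lo_mul, lo_pow]
    exact (nzd_unit hu).mul ((hn1.pow _).mul hn2)
  have hn4 : Nzd (lo hp v) (lo hp a * lo hp a) := by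
    rw [← lo_mul]
    exact hn3.congr' h1
  have h2 : ilen (lo hp v) (lo hp (a * a)) =
      ilen (lo hp v) (lo hp (C δ' * (C ϖ ^ (2 * K) * f))) := ilen_dvd h1
  rw [lo_mul hp a, ilen_mul hn4.of_mul, lo_mul hp (C δ'), ilen_unit hu,
    lo_mul hp (C ϖ ^ (2 * K)), lo_pow, ilen_mul (hn1.pow _),
    ilen_pow hn1, hj, ilen_comm (lo hp v) (lo hp f), he] at h2
  have h3 : ilen (lo hp v) (lo hp a) ≠ ⊤ := by
    intro h
    rw [h, top_add] at h2
    have : ((2 * K * j + e : ℕ) : ℕ∞) = ⊤ := by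
      rw [h2]; push_cast; ring
    exact ENat.natCast_ne_top _ this
  obtain ⟨i, hi⟩ := ENat.ne_top_iff_exists.1 h3
  rw [← hi] at h2
  have h4 : i + i = 2 * K * j + e := by exact_mod_cast h2
  rw [← hen, Int.even_coe_nat]
  have h5 : Even (2 * K * j + e) := ⟨i, h4.symm⟩
  rw [Nat.even_add] at h5
  exact h5.1 ⟨K * j, by ring⟩

end Pool.HYP
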